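import Pool.Agent.K1H27.PL.Stm
import Pool.Agent.K1H28.VM.OP
import Pool.Agent.K1H2.VM.CPT

/-!
# Project PL, part KER: the operators `H z = α_z K β_z`
-/

set_option autoImplicit false
set_option linter.unusedSectionVars false
set_option linter.unusedVariables false

namespace Pool.Agent.K1H45.PL

open MeasureTheory Set Metric Filter Topology Pool.Agent.K1H27.PL
open Pool.Agent.K1H2.VM (real_conj opNorm_le isInt_sub isInt_add isInt_unique inner_meas int_ae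
  toReal_pos_of_fact)
open scoped ENNReal NNReal
open Pool.Agent.K1H27.VM (HasHyp IsInt IsMul HT)

/-- Hille-Tamarkin operators are norm limits of operators of finite rank -/
def S_APX : Prop := ∀ (S : Type) [MeasurableSpace S] (μ : Measure S) [SigmaFinite μ]
  (p q : ℝ≥0∞) [Fact (1 ≤ p)] [Fact (1 ≤ q)], p.HolderConjugate q → p ≠ ∞ → q ≠ ∞ →
  ∀ k : S → S → ℂ, Measurable (Function.uncurry k) → HT μ p q k ≠ ∞ →
  ∀ V : Lp ℂ p μ →L[ℂ] Lp ℂ p μ, IsInt k V → ∀ ε : ℝ, 0 < ε →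
  ∃ F : Lp ℂ p μ →L[ℂ] Lp ℂ p μ,
    FiniteDimensional ℂ (LinearMap.range (F : Lp ℂ p μ →ₗ[ℂ] Lp ℂ p μ)) ∧ ‖V - F‖ < ε

/-! ### the weights -/

theorem wt_eq {γ : ℝ} {ζ : ℂ} (hζ : ζ ≠ 0) :
    (‖ζ‖ₑ⁻¹) ^ γ = ENNReal.ofReal (‖ζ‖ ^ (-γ)) := by
  have hx : 0 < ‖ζ‖ := norm_pos_iff.2 hζ
  rw [← ofReal_norm, ← ENNReal.ofReal_inv_of_pos hx, ENNReal.ofReal_rpow_of_pos (inv_pos.2 hx),
    Real.inv_rpow hx.le, Real.rpow_neg hx.le]

theorem en_pow {P : ℝ} (hP : 0 ≤ P) (w : ℂ) : ‖w‖ₑ ^ P = ENNReal.ofReal (‖w‖ ^ P) := by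
  rw [← ofReal_norm, ENNReal.ofReal_rpow_of_nonneg (norm_nonneg _) hP]

theorem aa_zero {P : ℝ} (hP : 0 < P) : aa P 0 = 0 := by
  unfold aa
  rw [norm_zero, Real.zero_rpow]
  · simp
  · have : 0 < 1 / P := by positivity
    linarith

theorem bb_zero {P : ℝ} : bb P 0 = 0 := by
  unfold bb; simp

theorem aa_pow {P : ℝ} (hP : 0 < P) {ζ : ℂ} (hζ : ζ ≠ 0) : ‖aa P ζ‖ ^ P = ‖ζ‖ ^ (-1 : ℝ) := by
  have hx : 0 < ‖ζ‖ := norm_pos_iff.2 hζ
  unfold aa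
  rw [Complex.norm_real, Real.norm_of_nonneg (Real.rpow_nonneg hx.le _), ← Real.rpow_mul hx.le]
  congr 1
  field_simp

theorem bb_pow {P Q : ℝ} (h : P.HolderConjugate Q) {ζ : ℂ} (hζ : ζ ≠ 0) :
    ‖bb P ζ‖ ^ Q = ‖ζ‖ ^ (-1 : ℝ) := by
  have hx : 0 < ‖ζ‖ := norm_pos_iff.2 hζ
  have hP := h.pos
  have hQ := h.symm.pos
  unfold bb
  rw [norm_mul, norm_inv, Complex.norm_real, Real.norm_of_nonneg (Real.rpow_nonneg hx.le _),
    ← Real.rpow_neg_one ‖ζ‖, ← Real.rpow_add hx, ← Real.rpow_mul hx.le]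
  congr 1
  have h1 := h.inv_add_inv_eq_one
  field_simp at h1 ⊢
  linarith

theorem chi_eq {ε : ℝ} (hε : 0 < ε) (ζ : ℂ) : 1 - chi ε ζ = ((ε / (‖ζ‖ ^ 2 + ε) : ℝ) : ℂ) := by
  unfold chi
  have h : 0 < ‖ζ‖ ^ 2 + ε := by positivity
  rw [← Complex.ofReal_one, ← Complex.ofReal_sub]
  congr 1
  field_simp
  ring

theorem chi_norm {ε : ℝ} (hε : 0 < ε) (ζ : ℂ) : ‖chi ε ζ‖ ≤ 1 := by
  unfold chi
  have h : 0 < ‖ζ‖ ^ 2 + ε := by positivity
  rw [Complex.norm_real, Real.norm_of_nonneg (by positivity), div_le_one h]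
  linarith

theorem one_sub_chi {ε η r : ℝ} (hε : 0 < ε) (hη0 : 0 < η) (hη1 : η ≤ 1) (hr : 1 ≤ r) {ζ : ℂ}
    (hζ : ζ ≠ 0) : ‖1 - chi ε ζ‖ ^ r ≤ ε ^ (η / 2) * ‖ζ‖ ^ (-η) := by
  have hx : 0 < ‖ζ‖ := norm_pos_iff.2 hζ
  have h : 0 < ‖ζ‖ ^ 2 + ε := by positivity
  rw [chi_eq hε, Complex.norm_real, Real.norm_of_nonneg (by positivity)]
  have h0 : 0 < ε / (‖ζ‖ ^ 2 + ε) := by positivity
  have h1 : ε / (‖ζ‖ ^ 2 + ε) ≤ 1 := by rw [div_le_one h]; nlinarith [sq_nonneg ‖ζ‖]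
  calc (ε / (‖ζ‖ ^ 2 + ε)) ^ r ≤ (ε / (‖ζ‖ ^ 2 + ε)) ^ (η / 2) :=
        Real.rpow_le_rpow_of_exponent_ge h0 h1 (by linarith)
    _ ≤ (ε / ‖ζ‖ ^ 2) ^ (η / 2) := by
        refine Real.rpow_le_rpow h0.le ?_ (by linarith)
        exact div_le_div_of_nonneg_left hε.le (by positivity) (by linarith)
    _ = ε ^ (η / 2) * ‖ζ‖ ^ (-η) := by
        rw [Real.div_rpow hε.le (by positivity), div_eq_mul_inv, ← Real.rpow_natCast,
          ← Real.rpow_mul hx.le, ← Real.rpow_neg hx.le]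
        congr 2
        push_cast
        ring

theorem pow_low {x d a γ : ℝ} (hx : 0 < x) (hxd : x ≤ d) (hd : 1 ≤ d) (ha1 : a ≤ γ)
    (ha0 : 1 ≤ a) : x ^ (-a) ≤ d ^ (γ - 1) * x ^ (-γ) := by
  have e : x ^ (-a) = x ^ (γ - a) * x ^ (-γ) := by
    rw [← Real.rpow_add hx]; congr 1; ring
  rw [e]
  refine mul_le_mul_of_nonneg_right ?_ (Real.rpow_nonneg hx.le _)
  exact (Real.rpow_le_rpow hx.le hxd (by linarith)).trans
    (Real.rpow_le_rpow_of_exponent_le hd (by linarith))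

section wts

variable {P Q d γ : ℝ}

theorem W0 (hd : 1 ≤ d) (hγ : 1 < γ) {ζ : ℂ} (hζ : ‖ζ‖ ≤ d) :
    (1 : ℝ≥0∞) ≤ ENNReal.ofReal (d ^ γ) * (‖ζ‖ₑ⁻¹) ^ γ := by
  by_cases h0 : ζ = 0
  · subst h0
    rw [enorm_zero, ENNReal.inv_zero, ENNReal.top_rpow_of_pos (by linarith),
      ENNReal.mul_top]
    · exact le_top
    · rw [Ne, ENNReal.ofReal_eq_zero, not_le]; positivity
  · have hx : 0 < ‖ζ‖ := norm_pos_iff.2 h0
    rw [wt_eq h0, ← ENNReal.ofReal_mul (by positivity), ← ENNReal.ofReal_one]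
    refine ENNReal.ofReal_le_ofReal ?_
    rw [Real.rpow_neg hx.le, ← div_eq_mul_inv, one_le_div (Real.rpow_pos_of_pos hx _)]
    exact Real.rpow_le_rpow hx.le hζ (by linarith)

theorem W1 (hP : 0 < P) (hd : 1 ≤ d) (hγ : 1 < γ) {ζ : ℂ} (hζ : ‖ζ‖ ≤ d) :
    ‖aa P ζ‖ₑ ^ P ≤ ENNReal.ofReal (d ^ (γ - 1)) * (‖ζ‖ₑ⁻¹) ^ γ := by
  by_cases h0 : ζ = 0
  · subst h0
    rw [aa_zero hP, enorm_zero, ENNReal.zero_rpow_of_pos hP]
    exact zero_le
  · have hx : 0 < ‖ζ‖ := norm_pos_iff.2 h0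
    rw [en_pow hP.le, wt_eq h0, ← ENNReal.ofReal_mul (by positivity), aa_pow hP h0]
    exact ENNReal.ofReal_le_ofReal (pow_low hx hζ hd hγ.le le_rfl)

theorem W2 (h : P.HolderConjugate Q) (hd : 1 ≤ d) (hγ : 1 < γ) {ζ : ℂ} (hζ : ‖ζ‖ ≤ d) :
    ‖bb P ζ‖ₑ ^ Q ≤ ENNReal.ofReal (d ^ (γ - 1)) * (‖ζ‖ₑ⁻¹) ^ γ := by
  by_cases h0 : ζ = 0
  · subst h0
    rw [bb_zero, enorm_zero, ENNReal.zero_rpow_of_pos h.symm.pos]
    exact zero_le
  · have hx : 0 < ‖ζ‖ := norm_pos_iff.2 h0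
    rw [en_pow h.symm.pos.le, wt_eq h0, ← ENNReal.ofReal_mul (by positivity), bb_pow h h0]
    exact ENNReal.ofReal_le_ofReal (pow_low hx hζ hd hγ.le le_rfl)

theorem W34 {r : ℝ} (hr : 1 ≤ r) (hd : 1 ≤ d) (hγ : 1 < γ) {ε : ℝ} (hε : 0 < ε) {ζ w : ℂ}
    (hζ : ‖ζ‖ ≤ d) (h00 : ζ = 0 → w = 0) (hw : ζ ≠ 0 → ‖w‖ ^ r = ‖ζ‖ ^ (-1 : ℝ)) :
    ‖w * (1 - chi ε ζ)‖ₑ ^ r ≤
      ENNReal.ofReal (ε ^ (min (γ - 1) 1 / 2)) * (ENNReal.ofReal (d ^ (γ - 1)) *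
        (‖ζ‖ₑ⁻¹) ^ γ) := by
  have hη0 : 0 < min (γ - 1) 1 := lt_min (by linarith) one_pos
  have hη1 : min (γ - 1) 1 ≤ 1 := min_le_right _ _
  have hη2 : min (γ - 1) 1 ≤ γ - 1 := min_le_left _ _
  by_cases h0 : ζ = 0
  · rw [h00 h0, zero_mul, enorm_zero, ENNReal.zero_rpow_of_pos (by linarith)]
    exact zero_le
  · have hx : 0 < ‖ζ‖ := norm_pos_iff.2 h0
    rw [en_pow (by linarith), wt_eq h0, ← ENNReal.ofReal_mul (by positivity),
      ← ENNReal.ofReal_mul (by positivity)]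
    refine ENNReal.ofReal_le_ofReal ?_
    rw [norm_mul, Real.mul_rpow (norm_nonneg _) (norm_nonneg _), hw h0]
    calc ‖ζ‖ ^ (-1 : ℝ) * ‖1 - chi ε ζ‖ ^ r
        ≤ ‖ζ‖ ^ (-1 : ℝ) * (ε ^ (min (γ - 1) 1 / 2) * ‖ζ‖ ^ (-min (γ - 1) 1)) :=
          mul_le_mul_of_nonneg_left (one_sub_chi hε hη0 hη1 hr h0) (Real.rpow_nonneg hx.le _)
      _ = ε ^ (min (γ - 1) 1 / 2) * ‖ζ‖ ^ (-(1 + min (γ - 1) 1)) := by
          have : -(1 + min (γ - 1) 1) = -1 + -min (γ - 1) 1 := by ring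
          rw [this, Real.rpow_add hx]; ring
      _ ≤ _ := by
          refine mul_le_mul_of_nonneg_left ?_ (Real.rpow_nonneg hε.le _)
          exact pow_low hx hζ hd (by linarith) (by linarith)

end wts

/-! ### measurability -/

theorem meas_aa (P : ℝ) : Measurable (aa P) := by
  unfold aa
  exact Complex.measurable_ofReal.comp (measurable_norm.pow_const _)

theorem meas_nn (P : ℝ) : Measurable (nn P) := by
  unfold nn
  exact Complex.measurable_ofReal.comp (measurable_norm.pow_const _)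

theorem meas_bb (P : ℝ) : Measurable (bb P) := by
  unfold bb
  exact (Complex.measurable_ofReal.comp (measurable_norm.pow_const _)).mul measurable_inv

theorem meas_chi (ε : ℝ) : Measurable (chi ε) := by
  unfold chi
  exact Complex.measurable_ofReal.comp
    ((measurable_norm.pow_const 2).div ((measurable_norm.pow_const 2).add_const ε))

/-! ### kernels with weights -/

section ker

variable {S : Type} [MeasurableSpace S] {μ : Measure S} [SigmaFinite μ] {p q : ℝ≥0∞}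
  [Fact (1 ≤ p)] [Fact (1 ≤ q)]

theorem ht_le (hc : p.toReal.HolderConjugate q.toReal) {φ : S → ℂ} {U : Set ℂ} {γ : ℝ} {D : ℝ≥0}
    {k : S → S → ℂ} (hW : WW μ p q φ γ U k D) {z z' : ℂ} (hz : z ∈ U) (hz' : z' ∈ U)
    {u v : S → ℂ} {A B : ℝ≥0∞} (hA : A ≠ ∞) (hB : B ≠ ∞)
    (hu : ∀ s, ‖u s‖ₑ ^ p.toReal ≤ A * (‖z - φ s‖ₑ⁻¹) ^ γ)
    (hv : ∀ t, ‖v t‖ₑ ^ q.toReal ≤ B * (‖z' - φ t‖ₑ⁻¹) ^ γ) :
    HT μ p q (fun s t => u s * k s t * v t) ≤ A * B ^ (p.toReal / q.toReal) * D := by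
  have hP : 0 < p.toReal := hc.pos
  have hQ : 0 < q.toReal := hc.symm.pos
  have hPQ : 0 < p.toReal / q.toReal := div_pos hP hQ
  have hBP : B ^ (p.toReal / q.toReal) ≠ ∞ := ENNReal.rpow_ne_top_of_nonneg hPQ.le hB
  refine le_trans ?_ (mul_le_mul_right (hW z hz z' hz') (A * B ^ (p.toReal / q.toReal)))
  rw [← lintegral_const_mul' _ _ (ENNReal.mul_ne_top hA hBP)]
  unfold HT
  refine lintegral_mono fun s => ?_
  have h1 : ∫⁻ t, ‖u s * k s t * v t‖ₑ ^ q.toReal ∂μ ≤ (‖u s‖ₑ ^ q.toReal * B) *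
      ∫⁻ t, ‖k s t‖ₑ ^ q.toReal * (‖z' - φ t‖ₑ⁻¹) ^ γ ∂μ := by
    have hu' : ‖u s‖ₑ ^ q.toReal ≠ ∞ := ENNReal.rpow_ne_top_of_nonneg hQ.le (by simp)
    rw [← lintegral_const_mul' _ _ (ENNReal.mul_ne_top hu' hB)]
    refine lintegral_mono fun t => ?_
    rw [enorm_mul, enorm_mul, ENNReal.mul_rpow_of_nonneg _ _ hQ.le,
      ENNReal.mul_rpow_of_nonneg _ _ hQ.le]
    calc ‖u s‖ₑ ^ q.toReal * ‖k s t‖ₑ ^ q.toReal * ‖v t‖ₑ ^ q.toReal
        ≤ ‖u s‖ₑ ^ q.toReal * ‖k s t‖ₑ ^ q.toReal * (B * (‖z' - φ t‖ₑ⁻¹) ^ γ) := by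
          gcongr
          exact hv t
      _ = _ := by ring
  calc (∫⁻ t, ‖u s * k s t * v t‖ₑ ^ q.toReal ∂μ) ^ (p.toReal / q.toReal)
      ≤ ((‖u s‖ₑ ^ q.toReal * B) * ∫⁻ t, ‖k s t‖ₑ ^ q.toReal * (‖z' - φ t‖ₑ⁻¹) ^ γ ∂μ) ^
          (p.toReal / q.toReal) := ENNReal.rpow_le_rpow h1 hPQ.le
    _ = ‖u s‖ₑ ^ p.toReal * (B ^ (p.toReal / q.toReal) *
          (∫⁻ t, ‖k s t‖ₑ ^ q.toReal * (‖z' - φ t‖ₑ⁻¹) ^ γ ∂μ) ^ (p.toReal / q.toReal)) := by
        rw [ENNReal.mul_rpow_of_nonneg _ _ hPQ.le, ENNReal.mul_rpow_of_nonneg _ _ hPQ.le,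
          ← ENNReal.rpow_mul, mul_div_cancel₀ _ hQ.ne', mul_assoc]
    _ ≤ (A * (‖z - φ s‖ₑ⁻¹) ^ γ) * (B ^ (p.toReal / q.toReal) *
          (∫⁻ t, ‖k s t‖ₑ ^ q.toReal * (‖z' - φ t‖ₑ⁻¹) ^ γ ∂μ) ^ (p.toReal / q.toReal)) := by
        gcongr
        exact hu s
    _ = _ := by ring

theorem norm_le (hc : p.toReal.HolderConjugate q.toReal) (hp : p ≠ ∞) {k : S → S → ℂ}
    (hk : Measurable (Function.uncurry k)) {V : Lp ℂ p μ →L[ℂ] Lp ℂ p μ} (hV : IsInt k V)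
    {Y : ℝ≥0∞} (hY : Y ≠ ∞) {x : ℝ} (hx : 0 ≤ x)
    (h : HT μ p q k ≤ Y * ENNReal.ofReal x) :
    ‖V‖ ≤ (Y ^ (1 / p.toReal)).toReal * x ^ (1 / p.toReal) := by
  have hP : 0 < 1 / p.toReal := one_div_pos.2 hc.pos
  have hfin : HT μ p q k ≠ ∞ := ne_top_of_le_ne_top (ENNReal.mul_ne_top hY (by simp)) h
  refine (opNorm_le hc hp hk hfin hV).trans ?_
  have h1 : (HT μ p q k) ^ (1 / p.toReal) ≤ Y ^ (1 / p.toReal) * ENNReal.ofReal x ^ (1 / p.toReal) := by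
    rw [← ENNReal.mul_rpow_of_nonneg _ _ hP.le]
    exact ENNReal.rpow_le_rpow h hP.le
  refine (ENNReal.toReal_mono (ENNReal.mul_ne_top (ENNReal.rpow_ne_top_of_nonneg hP.le hY)
    (ENNReal.rpow_ne_top_of_nonneg hP.le (by simp))) h1).trans (le_of_eq ?_)
  rw [ENNReal.toReal_mul, ENNReal.ofReal_rpow_of_nonneg hx hP.le,
    ENNReal.toReal_ofReal (Real.rpow_nonneg hx _)]

theorem isInt_mul_left {k : S → S → ℂ} {V N : Lp ℂ p μ →L[ℂ] Lp ℂ p μ} {f : S → ℂ}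
    (hN : IsMul f N) (hV : IsInt k V) : IsInt (fun s t => f s * k s t) (N * V) := by
  intro g
  have h1 := hN (V g)
  filter_upwards [h1, hV g] with s h1 h2
  change (N (V g)) s = _
  rw [h1, h2, ← integral_const_mul]
  refine integral_congr_ae (Eventually.of_forall fun t => ?_)
  simp only [mul_assoc]

theorem isInt_mul_right {k : S → S → ℂ} {V N : Lp ℂ p μ →L[ℂ] Lp ℂ p μ} {f : S → ℂ}
    (hN : IsMul f N) (hV : IsInt k V) : IsInt (fun s t => k s t * f t) (V * N) := by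
  intro g
  have h1 := hV (N g)
  filter_upwards [h1] with s h1
  change (V (N g)) s = _
  rw [h1]
  refine integral_congr_ae ?_
  filter_upwards [hN g] with t ht
  rw [ht, mul_assoc]

theorem isInt_congr {k l : S → S → ℂ} (h : ∀ᵐ s ∂μ, ∀ t, k s t = l s t)
    {V : Lp ℂ p μ →L[ℂ] Lp ℂ p μ} (hV : IsInt k V) : IsInt l V := by
  intro g
  filter_upwards [hV g, h] with s h1 h2
  rw [h1]
  refine integral_congr_ae (Eventually.of_forall fun t => ?_)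
  simp only [h2 t]

end ker

theorem nn_aa {P : ℝ} (hP : 0 < P) {ζ : ℂ} (hζ : ζ ≠ 0) : nn P ζ * aa P ζ = 1 := by
  have hx : 0 < ‖ζ‖ := norm_pos_iff.2 hζ
  unfold nn aa
  rw [← Complex.ofReal_mul, ← Real.rpow_add hx]
  simp

/-- KER -/
theorem t_KER (hMUL : S_MUL) (hCTS : S_CTS) (hAPX : S_APX) : S_KER := by
  intro S _ μ _ p q _ _ hpq hp hq φ hφ hM U R γ D k hU hUn hUR hγ hk hW
  obtain ⟨M₀, hM₀⟩ := hM
  have hc := real_conj hpq hp hq
  have hP : 0 < p.toReal := hc.pos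
  have hQ : 0 < q.toReal := hc.symm.pos
  have hP1 : 1 < p.toReal := hc.lt
  have hQ1 : 1 < q.toReal := hc.symm.lt
  have hPQ : 0 < p.toReal / q.toReal := div_pos hP hQ
  set d : ℝ := max 1 (R + M₀) with hd
  have hd1 : 1 ≤ d := le_max_left _ _
  have hζ : ∀ z ∈ U, ∀ s, ‖z - φ s‖ ≤ d := by
    intro z hz s
    have h1 := hUR hz
    rw [mem_ball_zero_iff] at h1
    calc ‖z - φ s‖ ≤ ‖z‖ + ‖φ s‖ := norm_sub_le _ _
      _ ≤ R + M₀ := add_le_add h1.le (hM₀ s)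
      _ ≤ d := le_max_right _ _
  set c₀ : ℝ≥0∞ := ENNReal.ofReal (d ^ γ) with hc₀
  set c₁ : ℝ≥0∞ := ENNReal.ofReal (d ^ (γ - 1)) with hc₁
  have hc₀t : c₀ ≠ ∞ := ENNReal.ofReal_ne_top
  have hc₁t : c₁ ≠ ∞ := ENNReal.ofReal_ne_top
  have hφz : ∀ z, Measurable fun s => z - φ s := fun z => measurable_const.sub hφ
  -- the weights
  have w1 : ∀ z ∈ U, ∀ s, ‖(1 : ℂ)‖ₑ ^ p.toReal ≤ c₀ * (‖z - φ s‖ₑ⁻¹) ^ γ := fun z hz s => by
    rw [enorm_one, ENNReal.one_rpow]; exact W0 hd1 hγ (hζ z hz s)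
  have w1' : ∀ z ∈ U, ∀ s, ‖(1 : ℂ)‖ₑ ^ q.toReal ≤ c₀ * (‖z - φ s‖ₑ⁻¹) ^ γ := fun z hz s => by
    rw [enorm_one, ENNReal.one_rpow]; exact W0 hd1 hγ (hζ z hz s)
  have wa : ∀ z ∈ U, ∀ s, ‖aa p.toReal (z - φ s)‖ₑ ^ p.toReal ≤ c₁ * (‖z - φ s‖ₑ⁻¹) ^ γ :=
    fun z hz s => W1 hP hd1 hγ (hζ z hz s)
  have wb : ∀ z ∈ U, ∀ s, ‖bb p.toReal (z - φ s)‖ₑ ^ q.toReal ≤ c₁ * (‖z - φ s‖ₑ⁻¹) ^ γ :=
    fun z hz s => W2 hc hd1 hγ (hζ z hz s)
  -- the rates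
  have wa' : ∀ ε : ℝ, 0 < ε → ∀ z ∈ U, ∀ s,
      ‖aa p.toReal (z - φ s) * (1 - chi ε (z - φ s))‖ₑ ^ p.toReal ≤
        (ENNReal.ofReal (ε ^ (min (γ - 1) 1 / 2)) * c₁) * (‖z - φ s‖ₑ⁻¹) ^ γ := by
    intro ε hε z hz s
    rw [mul_assoc]
    exact W34 hP1.le hd1 hγ hε (hζ z hz s) (fun h => by rw [h]; exact aa_zero hP)
      (fun h => aa_pow hP h)
  have wb' : ∀ ε : ℝ, 0 < ε → ∀ z ∈ U, ∀ s,
      ‖bb p.toReal (z - φ s) * (1 - chi ε (z - φ s))‖ₑ ^ q.toReal ≤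
        (ENNReal.ofReal (ε ^ (min (γ - 1) 1 / 2)) * c₁) * (‖z - φ s‖ₑ⁻¹) ^ γ := by
    intro ε hε z hz s
    rw [mul_assoc]
    exact W34 hQ1.le hd1 hγ hε (hζ z hz s) (fun h => by rw [h]; exact bb_zero)
      (fun h => bb_pow hc h)
  -- the kernel k
  have hkf : HT μ p q k ≠ ∞ := by
    obtain ⟨z, hz⟩ := hUn
    have h := ht_le hc hW hz hz hc₀t hc₀t (w1 z hz) (w1' z hz)
    simp only [one_mul, mul_one] at h
    exact ne_top_of_le_ne_top (ENNReal.mul_ne_top (ENNReal.mul_ne_top hc₀t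
      (ENNReal.rpow_ne_top_of_nonneg hPQ.le hc₀t)) (by simp)) h
  obtain ⟨K, hK⟩ := (Pool.Agent.K1H28.VM.t_OP S μ p q hpq hp hq k hk hkf).1
  -- the kernels kz
  have mk : ∀ u v : S → ℂ, Measurable u → Measurable v →
      Measurable (Function.uncurry fun s t => u s * k s t * v t) := fun u v hu hv =>
    ((hu.comp measurable_fst).mul hk).mul (hv.comp measurable_snd)
  have hkzm : ∀ z, Measurable (Function.uncurry (kz φ p.toReal k z)) := fun z =>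
    mk _ _ ((meas_aa _).comp (hφz z)) ((meas_bb _).comp (hφz z))
  set Y₀ : ℝ≥0∞ := c₁ * c₁ ^ (p.toReal / q.toReal) * D with hY₀
  have hY₀t : Y₀ ≠ ∞ := ENNReal.mul_ne_top (ENNReal.mul_ne_top hc₁t
      (ENNReal.rpow_ne_top_of_nonneg hPQ.le hc₁t)) (by simp)
  have hkz : ∀ z ∈ U, HT μ p q (kz φ p.toReal k z) ≤ Y₀ := fun z hz =>
    ht_le hc hW hz hz hc₁t hc₁t (wa z hz) (wb z hz)
  have hex : ∀ z, ∃ V : Lp ℂ p μ →L[ℂ] Lp ℂ p μ, z ∈ U → IsInt (kz φ p.toReal k z) V := by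
    intro z
    by_cases hz : z ∈ U
    · obtain ⟨V, hV⟩ := (Pool.Agent.K1H28.VM.t_OP S μ p q hpq hp hq _ (hkzm z)
        (ne_top_of_le_ne_top hY₀t (hkz z hz))).1
      exact ⟨V, fun _ => hV⟩
    · exact ⟨0, fun h => absurd h hz⟩
  choose H hH using hex
  refine ⟨hkf, H, hH, ?_, fun z hz ε hε => ?_, fun A _ hAU => ?_, ?_⟩
  · -- continuity
    obtain ⟨hcts, -, -⟩ := hCTS p.toReal hP1
    have hMa := fun n : ℕ => hMUL S μ p φ hφ ⟨M₀, hM₀⟩ _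
      (hcts (1 / ((n : ℝ) + 1)) (by positivity)).2.1
    have hMb := fun n : ℕ => hMUL S μ p φ hφ ⟨M₀, hM₀⟩ _
      (hcts (1 / ((n : ℝ) + 1)) (by positivity)).1
    choose Ma hMac hMam using hMa
    choose Mb hMbc hMbm using hMb
    have hGc : ∀ n, Continuous fun z => Ma n z * K * Mb n z := fun n =>
      ((hMac n).mul continuous_const).mul (hMbc n)
    -- the rate
    set Y₁ : ℝ≥0∞ := c₁ * c₁ ^ (p.toReal / q.toReal) * D with hY₁
    set η : ℝ := min (γ - 1) 1 / 2 with hη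
    have hη0 : 0 < η := by
      rw [hη]; have : 0 < min (γ - 1) 1 := lt_min (by linarith) one_pos
      linarith
    have hrate : ∀ n : ℕ, ∀ z ∈ U, ‖H z - Ma n z * K * Mb n z‖ ≤
        (Y₁ ^ (1 / p.toReal)).toReal * ((1 / ((n : ℝ) + 1)) ^ η) ^ (1 / p.toReal) +
        (Y₁ ^ (1 / p.toReal)).toReal *
          (((1 / ((n : ℝ) + 1)) ^ η) ^ (p.toReal / q.toReal)) ^ (1 / p.toReal) := by
      intro n z hz
      set ε : ℝ := 1 / ((n : ℝ) + 1) with hε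
      have hε0 : 0 < ε := by positivity
      have hεη : 0 ≤ ε ^ η := Real.rpow_nonneg hε0.le _
      -- first kernel
      have mu1 : Measurable fun s => aa p.toReal (z - φ s) * (1 - chi ε (z - φ s)) :=
        ((meas_aa _).comp (hφz z)).mul (measurable_const.sub ((meas_chi _).comp (hφz z)))
      have mv1 : Measurable fun s => bb p.toReal (z - φ s) := (meas_bb _).comp (hφz z)
      have mu2 : Measurable fun s => chi ε (z - φ s) * aa p.toReal (z - φ s) :=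
        ((meas_chi _).comp (hφz z)).mul ((meas_aa _).comp (hφz z))
      have mv2 : Measurable fun s => bb p.toReal (z - φ s) * (1 - chi ε (z - φ s)) :=
        ((meas_bb _).comp (hφz z)).mul (measurable_const.sub ((meas_chi _).comp (hφz z)))
      have mv3 : Measurable fun s => chi ε (z - φ s) * bb p.toReal (z - φ s) :=
        ((meas_chi _).comp (hφz z)).mul ((meas_bb _).comp (hφz z))
      have hwchi : ∀ s, ‖chi ε (z - φ s) * aa p.toReal (z - φ s)‖ₑ ^ p.toReal ≤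
          c₁ * (‖z - φ s‖ₑ⁻¹) ^ γ := by
        intro s
        refine le_trans (ENNReal.rpow_le_rpow ?_ hP.le) (wa z hz s)
        rw [← ofReal_norm, ← ofReal_norm, norm_mul]
        exact ENNReal.ofReal_le_ofReal
          (mul_le_of_le_one_left (norm_nonneg _) (chi_norm hε0 _))
      have h1 := ht_le hc hW hz hz (ENNReal.mul_ne_top ENNReal.ofReal_ne_top hc₁t) hc₁t
        (wa' ε hε0 z hz) (wb z hz)
      have h2 := ht_le hc hW hz hz hc₁t (ENNReal.mul_ne_top ENNReal.ofReal_ne_top hc₁t)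
        hwchi (wb' ε hε0 z hz)
      have h1' : HT μ p q (fun s t => aa p.toReal (z - φ s) * (1 - chi ε (z - φ s)) * k s t *
          bb p.toReal (z - φ t)) ≤ Y₁ * ENNReal.ofReal (ε ^ η) := by
        refine h1.trans (le_of_eq ?_)
        rw [hY₁]; ring
      have h2' : HT μ p q (fun s t => chi ε (z - φ s) * aa p.toReal (z - φ s) * k s t *
          (bb p.toReal (z - φ t) * (1 - chi ε (z - φ t)))) ≤
          Y₁ * ENNReal.ofReal ((ε ^ η) ^ (p.toReal / q.toReal)) := by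
        refine h2.trans (le_of_eq ?_)
        rw [hY₁, ENNReal.mul_rpow_of_nonneg _ _ hPQ.le, ENNReal.ofReal_rpow_of_nonneg hεη hPQ.le]
        ring
      obtain ⟨V1, hV1⟩ := (Pool.Agent.K1H28.VM.t_OP S μ p q hpq hp hq _ (mk _ _ mu1 mv1)
        (ne_top_of_le_ne_top (ENNReal.mul_ne_top hY₀t ENNReal.ofReal_ne_top) h1')).1
      obtain ⟨V2, hV2⟩ := (Pool.Agent.K1H28.VM.t_OP S μ p q hpq hp hq _ (mk _ _ mu2 mv2)
        (ne_top_of_le_ne_top (ENNReal.mul_ne_top hY₀t ENNReal.ofReal_ne_top) h2')).1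
      have hV12 := isInt_add hc hp (mk _ _ mu1 mv1)
        (ne_top_of_le_ne_top (ENNReal.mul_ne_top hY₀t ENNReal.ofReal_ne_top) h1')
        (mk _ _ mu2 mv2)
        (ne_top_of_le_ne_top (ENNReal.mul_ne_top hY₀t ENNReal.ofReal_ne_top) h2') hV1 hV2
      have hwchib : ∀ s, ‖chi ε (z - φ s) * bb p.toReal (z - φ s)‖ₑ ^ q.toReal ≤
          c₁ * (‖z - φ s‖ₑ⁻¹) ^ γ := by
        intro s
        refine le_trans (ENNReal.rpow_le_rpow ?_ hQ.le) (wb z hz s)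
        rw [← ofReal_norm, ← ofReal_norm, norm_mul]
        exact ENNReal.ofReal_le_ofReal
          (mul_le_of_le_one_left (norm_nonneg _) (chi_norm hε0 _))
      have h3 := ht_le hc hW hz hz hc₁t hc₁t hwchi hwchib
      have hG := isInt_mul_right (hMbm n z) (isInt_mul_left (hMam n z) hK)
      have hsub := isInt_sub hc hp (hkzm z) (ne_top_of_le_ne_top hY₀t (hkz z hz))
        (mk _ _ mu2 mv3) (ne_top_of_le_ne_top hY₀t h3) (hH z hz) hG
      have e : H z - Ma n z * K * Mb n z = V1 + V2 := by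
        refine isInt_unique (isInt_congr (Eventually.of_forall fun s t => ?_) hsub) hV12
        simp only [kz]
        ring
      rw [e]
      refine (norm_add_le _ _).trans (add_le_add ?_ ?_)
      · exact norm_le hc hp (mk _ _ mu1 mv1) hV1 hY₀t hεη h1'
      · exact norm_le hc hp (mk _ _ mu2 mv2) hV2 hY₀t (Real.rpow_nonneg hεη _) h2'
    have hlim : Tendsto (fun n : ℕ =>
        (Y₁ ^ (1 / p.toReal)).toReal * ((1 / ((n : ℝ) + 1)) ^ η) ^ (1 / p.toReal) +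
        (Y₁ ^ (1 / p.toReal)).toReal *
          (((1 / ((n : ℝ) + 1)) ^ η) ^ (p.toReal / q.toReal)) ^ (1 / p.toReal)) atTop (𝓝 0) := by
      have hz0 : ∀ {f : ℕ → ℝ} {a : ℝ}, Tendsto f atTop (𝓝 0) → 0 < a →
          Tendsto (fun n => f n ^ a) atTop (𝓝 0) := by
        intro f a hf ha
        have := hf.rpow_const (p := a) (Or.inr ha.le)
        rwa [Real.zero_rpow ha.ne'] at this
      have t0 : Tendsto (fun n : ℕ => (1 / ((n : ℝ) + 1))) atTop (𝓝 0) :=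
        tendsto_one_div_add_atTop_nhds_zero_nat
      have t1 := hz0 t0 hη0
      have t2 := hz0 t1 (one_div_pos.2 hP)
      have t3 := hz0 (hz0 t1 hPQ) (one_div_pos.2 hP)
      have := (t2.const_mul (Y₁ ^ (1 / p.toReal)).toReal).add
        (t3.const_mul (Y₁ ^ (1 / p.toReal)).toReal)
      simpa using this
    have hunif : TendstoUniformlyOn (fun (n : ℕ) z => Ma n z * K * Mb n z) H atTop U := by
      rw [Metric.tendstoUniformlyOn_iff]
      intro δ hδ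
      filter_upwards [hlim.eventually (gt_mem_nhds hδ)] with n hn z hz
      rw [dist_eq_norm]
      exact (hrate n z hz).trans_lt hn
    exact hunif.continuousOn (Frequently.of_forall fun n => (hGc n).continuousOn)
  · exact hAPX S μ p q hpq hp hq _ (hkzm z) (ne_top_of_le_ne_top hY₀t (hkz z hz)) _ (hH z hz) ε hε
  · refine ⟨(Y₀ ^ (1 / p.toReal)).toReal * (1 : ℝ) ^ (1 / p.toReal), fun z hz => ?_⟩
    refine norm_le hc hp (hkzm z) (hH z (hAU hz)) hY₀t zero_le_one ?_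
    rw [ENNReal.ofReal_one, mul_one]
    exact hkz z (hAU hz)
  · -- the comparison with `K * Mb`
    set η : ℝ := min (γ - 1) 1 / 2 with hη
    have hη0 : 0 < η := by
      rw [hη]; have : 0 < min (γ - 1) 1 := lt_min (by linarith) one_pos
      linarith
    set Y₃ : ℝ≥0∞ := c₀ * c₁ ^ (p.toReal / q.toReal) * D with hY₃
    have hY₃t : Y₃ ≠ ∞ := ENNReal.mul_ne_top (ENNReal.mul_ne_top hc₀t
      (ENNReal.rpow_ne_top_of_nonneg hPQ.le hc₁t)) (by simp)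
    refine ⟨(Y₃ ^ (1 / p.toReal)).toReal, η * (p.toReal / q.toReal) * (1 / p.toReal),
      mul_pos (mul_pos hη0 hPQ) (one_div_pos.2 hP), fun z hz hz0 ε hε hε1 K' Mb Mn hK' hMb hMn => ?_⟩
    have hKK : K' = K := isInt_unique hK' hK
    subst hKK
    have hεη : 0 ≤ ε ^ η := Real.rpow_nonneg hε.le _
    have m1 : Measurable fun _ : S => (1 : ℂ) := measurable_const
    have mv1 : Measurable fun s => bb p.toReal (z - φ s) := (meas_bb _).comp (hφz z)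
    have mv2 : Measurable fun s => bb p.toReal (z - φ s) * (1 - chi ε (z - φ s)) :=
      ((meas_bb _).comp (hφz z)).mul (measurable_const.sub ((meas_chi _).comp (hφz z)))
    have mv3 : Measurable fun s => chi ε (z - φ s) * bb p.toReal (z - φ s) :=
      ((meas_chi _).comp (hφz z)).mul ((meas_bb _).comp (hφz z))
    have h1 := ht_le hc hW hz hz hc₀t hc₁t (w1 z hz) (wb z hz)
    have h2 := ht_le hc hW hz hz hc₀t (ENNReal.mul_ne_top ENNReal.ofReal_ne_top hc₁t)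
        (w1 z hz) (wb' ε hε z hz)
    have hwchib : ∀ s, ‖chi ε (z - φ s) * bb p.toReal (z - φ s)‖ₑ ^ q.toReal ≤
          c₁ * (‖z - φ s‖ₑ⁻¹) ^ γ := by
      intro s
      refine le_trans (ENNReal.rpow_le_rpow ?_ hQ.le) (wb z hz s)
      rw [← ofReal_norm, ← ofReal_norm, norm_mul]
      exact ENNReal.ofReal_le_ofReal
        (mul_le_of_le_one_left (norm_nonneg _) (chi_norm hε _))
    have h3 := ht_le hc hW hz hz hc₀t hc₁t (w1 z hz) hwchib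
    have h2' : HT μ p q (fun s t => 1 * k s t * (bb p.toReal (z - φ t) *
        (1 - chi ε (z - φ t)))) ≤ Y₃ * ENNReal.ofReal ((ε ^ η) ^ (p.toReal / q.toReal)) := by
      refine h2.trans (le_of_eq ?_)
      rw [hY₃, ENNReal.mul_rpow_of_nonneg _ _ hPQ.le, ENNReal.ofReal_rpow_of_nonneg hεη hPQ.le]
      ring
    obtain ⟨V2, hV2⟩ := (Pool.Agent.K1H28.VM.t_OP S μ p q hpq hp hq _ (mk _ _ m1 mv2)
        (ne_top_of_le_ne_top (ENNReal.mul_ne_top hY₃t ENNReal.ofReal_ne_top) h2')).1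
    have hA : IsInt (fun s t => 1 * k s t * (chi ε (z - φ t) * bb p.toReal (z - φ t))) (K' * Mb) :=
      isInt_congr (Eventually.of_forall fun s t => by simp only [one_mul])
        (isInt_mul_right hMb hK')
    have hne : ∀ᵐ s ∂μ, z - φ s ≠ 0 := by
      rw [ae_iff]
      refine measure_mono_null (fun s hs => ?_) hz0
      simp only [Set.mem_ofPred_eq, not_not] at hs
      exact (sub_eq_zero.1 hs).symm
    have hB : IsInt (fun s t => 1 * k s t * bb p.toReal (z - φ t)) (Mn * H z) := by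
      refine isInt_congr ?_ (isInt_mul_left hMn (hH z hz))
      filter_upwards [hne] with s hs t
      have := nn_aa hP hs
      simp only [kz]
      linear_combination (k s t * bb p.toReal (z - φ t)) * this
    have hAB := isInt_sub hc hp (mk _ _ m1 mv3) (ne_top_of_le_ne_top hY₃t h3) (mk _ _ m1 mv1)
      (ne_top_of_le_ne_top hY₃t h1) hA hB
    have e : K' * Mb - Mn * H z = -V2 := by
      have hneg : IsInt (fun s t => -1 * (1 * k s t * (bb p.toReal (z - φ t) *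
          (1 - chi ε (z - φ t))))) ((-1 : ℂ) • V2) := Pool.Agent.K1H2.VM.isInt_smul (-1) hV2
      have h4 := isInt_unique (isInt_congr (Eventually.of_forall fun s t => by ring) hAB) hneg
      rw [h4]
      simp
    rw [e, norm_neg]
    refine (norm_le hc hp (mk _ _ m1 mv2) hV2 hY₃t (Real.rpow_nonneg hεη _) h2').trans
      (le_of_eq ?_)
    rw [← Real.rpow_mul hε.le, ← Real.rpow_mul hε.le]

end Pool.Agent.K1H45.PL
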